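import Mathlib

/-!
# The chart rings of the Fano fivefold

Eight coordinates `z_l`, `l : Idx = Fin 4 × Bool`, grouped in four pairs `l, star l`.
`Q = ∑_i z_(i,false) z_(i,true)`, `F = ∑_l κ_l z_l³`, `v z_l = Λ_l = κ_(star l) z_(star l)²`,
`m_(l,n) = z_l Λ_n + z_n Λ_l`.

The standard chart is `Λ_a m_(a,m) ≠ 0` with `a = (0,false)`, `m = (1,false)`, `p = (2,false)`,
`q = (3,false)`. With `λ = m_(a,m) / Λ_a` (degree 1) the functions are
`Z_l = z_l² / λ²`, `w = λ² / Λ_a`, `h_l = m_(a,l) / m_(a,m)`.
-/

open MvPolynomial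

universe u v

noncomputable section

namespace FQ

/-- The index set of the eight coordinates: `(i, j)` with `i` the number of the pair. -/
abbrev Idx : Type := Fin 4 × Bool

/-- The partner of a coordinate. -/
def star (l : Idx) : Idx := (l.1, !l.2)

/-- The quadric. -/
def polyQ (k : Type u) [Field k] : MvPolynomial Idx k :=
  ∑ i : Fin 4, X (i, false) * X (i, true)

/-- The cubic. -/
def polyF {k : Type u} [Field k] (κ : Idx → k) : MvPolynomial Idx k :=
  ∑ l : Idx, C (κ l) * X l ^ 3

/-- The condition on the coefficients: nonzero, and no nonempty subsum of the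
`1 / (κ_(i,false) κ_(i,true))` vanishes. -/
def Good {k : Type u} [Field k] (κ : Idx → k) : Prop :=
  (∀ l, κ l ≠ 0) ∧
    ∀ I : Finset (Fin 4), I.Nonempty → ∑ i ∈ I, (κ (i, false) * κ (i, true))⁻¹ ≠ 0

/-- The values `Λ_l = κ_(star l) Z_(star l)`. -/
def lam {k : Type u} [Field k] {C : Type v} [CommRing C] [Algebra k C] (κ : Idx → k)
    (Z : Idx → C) (l : Idx) : C :=
  algebraMap k C (κ (star l)) * Z (star l)

/-- A solution in the `k`-algebra `C` of the equations of the standard chart. -/
structure ChartPt {k : Type u} [Field k] (κ : Idx → k) (C : Type v) [CommRing C]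
    [Algebra k C] where
  Z : Idx → C
  w : C
  h : Idx → C
  h_a : h (0, false) = 0
  h_m : h (1, false) = 1
  eq_ms : h (1, true) = h (2, false) * h (2, true) + h (3, false) * h (3, true) +
    Z (0, false) * w ^ 2 * ∑ i : Fin 4, lam κ Z (i, false) * lam κ Z (i, true)
  eq_as : h (0, true) = w * (lam κ Z (1, true) * h (1, false) + lam κ Z (1, false) * h (1, true) +
    lam κ Z (2, true) * h (2, false) + lam κ Z (2, false) * h (2, true) +
    lam κ Z (3, true) * h (3, false) + lam κ Z (3, false) * h (3, true))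
  eq_Z : ∀ l : Idx, l ≠ (0, false) → Z l = h l ^ 2 + Z (0, false) * w ^ 2 * lam κ Z l ^ 2
  eq_w : w * lam κ Z (0, false) = 1

/-- The five coordinate functions of a chart: `Z_a, h_p, h_(star p), h_q, h_(star q)`. -/
def ChartPt.coords {k : Type u} [Field k] {κ : Idx → k} {C : Type v} [CommRing C]
    [Algebra k C] (x : ChartPt κ C) : Fin 5 → C :=
  ![x.Z (0, false), x.h (2, false), x.h (2, true), x.h (3, false), x.h (3, true)]

/-- The variables of the chart ring: `inl l` is `Z_l`, `inr 0` is `w`, `inr 1, …, inr 4` are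
`h_p, h_(star p), h_q, h_(star q)`. -/
abbrev Vars : Type := Idx ⊕ Fin 5

variable {k : Type u} [Field k] (κ : Idx → k)

/-- The polynomial `Λ_l` in the variables of the chart ring. -/
def pLam (l : Idx) : MvPolynomial Vars k := C (κ (star l)) * X (Sum.inl (star l))

/-- The polynomial `h_(star m)`. -/
def pHms : MvPolynomial Vars k :=
  X (Sum.inr 1) * X (Sum.inr 2) + X (Sum.inr 3) * X (Sum.inr 4) +
    X (Sum.inl (0, false)) * X (Sum.inr 0) ^ 2 *
      ∑ i : Fin 4, pLam κ (i, false) * pLam κ (i, true)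

/-- The polynomials `h_l` for `l` not in the pair `0`. -/
def pH' : Idx → MvPolynomial Vars k
  | (0, _) => 0
  | (1, false) => 1
  | (1, true) => pHms κ
  | (2, false) => X (Sum.inr 1)
  | (2, true) => X (Sum.inr 2)
  | (3, false) => X (Sum.inr 3)
  | (3, true) => X (Sum.inr 4)

/-- The polynomial `h_(star a)`. -/
def pHas : MvPolynomial Vars k :=
  X (Sum.inr 0) *
    (pLam κ (1, true) * pH' κ (1, false) + pLam κ (1, false) * pH' κ (1, true) +
      pLam κ (2, true) * pH' κ (2, false) + pLam κ (2, false) * pH' κ (2, true) +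
      pLam κ (3, true) * pH' κ (3, false) + pLam κ (3, false) * pH' κ (3, true))

/-- The polynomials `h_l`. -/
def pH : Idx → MvPolynomial Vars k
  | (0, true) => pHas κ
  | l => pH' κ l

/-- The relations of the chart ring: `Z_l - (h_l² + Z_a w² Λ_l²)` for `l ≠ a` and
`w Λ_a - 1` for `l = a`. -/
def rel (l : Idx) : MvPolynomial Vars k :=
  if l = (0, false) then X (Sum.inr 0) * pLam κ (0, false) - 1
  else X (Sum.inl l) -
    (pH κ l ^ 2 + X (Sum.inl (0, false)) * X (Sum.inr 0) ^ 2 * pLam κ l ^ 2)

/-- The chart ring. -/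
def ChartRing : Type u := MvPolynomial Vars k ⧸ Ideal.span (Set.range (rel κ))

instance : CommRing (ChartRing κ) :=
  inferInstanceAs (CommRing (MvPolynomial Vars k ⧸ Ideal.span (Set.range (rel κ))))

instance : Algebra k (ChartRing κ) :=
  inferInstanceAs (Algebra k (MvPolynomial Vars k ⧸ Ideal.span (Set.range (rel κ))))

/-- The quotient map. -/
def ChartRing.mk : MvPolynomial Vars k →ₐ[k] ChartRing κ :=
  Ideal.Quotient.mkₐ k (Ideal.span (Set.range (rel κ)))

variable {κ}

/-- The values of the variables at a point. -/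
def ChartPt.val {C : Type v} [CommRing C] [Algebra k C] (x : ChartPt κ C) : Vars → C
  | Sum.inl l => x.Z l
  | Sum.inr i => ![x.w, x.h (2, false), x.h (2, true), x.h (3, false), x.h (3, true)] i

theorem ChartPt.aeval_pLam {C : Type v} [CommRing C] [Algebra k C] (x : ChartPt κ C) (l : Idx) :
    aeval x.val (pLam κ l) = lam κ x.Z l := by
  simp [pLam, lam, ChartPt.val]

theorem ChartPt.aeval_pHms {C : Type v} [CommRing C] [Algebra k C] (x : ChartPt κ C) :
    aeval x.val (pHms κ) = x.h (1, true) := by
  rw [x.eq_ms]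
  simp only [pHms, map_add, map_mul, map_sum, map_pow, aeval_X, x.aeval_pLam]
  rfl

theorem ChartPt.aeval_pHas {C : Type v} [CommRing C] [Algebra k C] (x : ChartPt κ C) :
    aeval x.val (pHas κ) = x.h (0, true) := by
  rw [x.eq_as]
  simp only [pHas, pH', map_add, map_mul, map_one, aeval_X, x.aeval_pLam, x.aeval_pHms, x.h_m]
  rfl

theorem ChartPt.aeval_pH {C : Type v} [CommRing C] [Algebra k C] (x : ChartPt κ C) (l : Idx) :
    aeval x.val (pH κ l) = x.h l := by
  obtain ⟨i, j⟩ := l
  fin_cases i <;> cases j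
  · simpa [pH, pH'] using x.h_a.symm
  · exact x.aeval_pHas
  · simpa [pH, pH'] using x.h_m.symm
  · exact x.aeval_pHms
  all_goals
    simp [pH, pH', ChartPt.val]

/-- The homomorphism from the chart ring given by a point. -/
def ChartPt.lift {C : Type v} [CommRing C] [Algebra k C] (x : ChartPt κ C) :
    ChartRing κ →ₐ[k] C :=
  Ideal.Quotient.liftₐ (Ideal.span (Set.range (rel κ))) (aeval x.val) (by
    have : Ideal.span (Set.range (rel κ)) ≤ RingHom.ker (aeval x.val : _ →ₐ[k] C) := by
      rw [Ideal.span_le]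
      rintro _ ⟨l, rfl⟩
      rw [SetLike.mem_coe, RingHom.mem_ker, rel]
      split_ifs with h
      · simp only [map_sub, map_mul, aeval_X, x.aeval_pLam, map_one]
        rw [show x.val (Sum.inr 0) = x.w from rfl, x.eq_w, sub_self]
      · simp only [map_sub, map_add, map_mul, map_pow, aeval_X, x.aeval_pLam, x.aeval_pH]
        rw [show x.val (Sum.inl l) = x.Z l from rfl,
          show x.val (Sum.inl (0, false)) = x.Z (0, false) from rfl,
          show x.val (Sum.inr 0) = x.w from rfl, ← x.eq_Z l h, sub_self]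
    exact fun a ha => this ha)

theorem ChartPt.lift_mk {C : Type v} [CommRing C] [Algebra k C] (x : ChartPt κ C)
    (p : MvPolynomial Vars k) : x.lift (ChartRing.mk κ p) = aeval x.val p := rfl

variable (κ)

theorem ChartRing.mk_surjective : Function.Surjective (ChartRing.mk κ) :=
  Ideal.Quotient.mkₐ_surjective k _

theorem ChartRing.mk_rel (l : Idx) : ChartRing.mk κ (rel κ l) = 0 :=
  Ideal.Quotient.eq_zero_iff_mem.2 (Ideal.subset_span ⟨l, rfl⟩)

theorem ChartRing.lam_eq (l : Idx) :
    lam κ (fun l => ChartRing.mk κ (X (Sum.inl l))) l = ChartRing.mk κ (pLam κ l) := by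
  rw [pLam, map_mul, lam]
  rfl

/-- The universal point of the chart. -/
def ChartRing.pt : ChartPt κ (ChartRing κ) where
  Z := fun l => ChartRing.mk κ (X (Sum.inl l))
  w := ChartRing.mk κ (X (Sum.inr 0))
  h := fun l => ChartRing.mk κ (pH κ l)
  h_a := by simp [pH, pH']
  h_m := by simp [pH, pH']
  eq_ms := by
    simp only [ChartRing.lam_eq, ← map_mul, ← map_pow, ← map_add, ← map_sum]
    rfl
  eq_as := by
    simp only [ChartRing.lam_eq, ← map_mul, ← map_pow, ← map_add, ← map_sum]
    rfl
  eq_Z := by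
    intro l hl
    simp only [ChartRing.lam_eq, ← map_mul, ← map_pow, ← map_add]
    rw [← sub_eq_zero, ← map_sub]
    have := ChartRing.mk_rel κ l
    rwa [rel, if_neg hl] at this
  eq_w := by
    simp only [ChartRing.lam_eq, ← map_mul]
    rw [← sub_eq_zero, ← map_one (ChartRing.mk κ), ← map_sub]
    have := ChartRing.mk_rel κ (0, false)
    rwa [rel, if_pos rfl] at this

end FQ
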