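import Mathlib
import Pool.Agent.Helper41.FQ.Std

/-!
# The generic point of the cone over `A = {Q = F = 0}` and the chart values
-/

open MvPolynomial

universe u v

noncomputable section

namespace FQ

variable {k : Type u} [Field k]

/-- A generic point of the cone `{Q = F = 0}` with values in a field `L`. -/
structure GenPt (κ : Idx → k) (L : Type v) [Field L] [Algebra k L] where
  ζ : Idx → L
  ker : ∀ p : MvPolynomial Idx k,
    aeval ζ p = 0 ↔ p ∈ Ideal.span ({polyQ k, polyF κ} : Set (MvPolynomial Idx k))

variable {κ : Idx → k} {L : Type v} [Field L] [Algebra k L]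

/-- `Λ_l = κ_(star l) ζ_(star l)²`. -/
def GenPt.Λ (x : GenPt κ L) (l : Idx) : L := algebraMap k L (κ (star l)) * x.ζ (star l) ^ 2

/-- `m_(l,n) = ζ_l Λ_n + ζ_n Λ_l`. -/
def GenPt.m (x : GenPt κ L) (l n : Idx) : L := x.ζ l * x.Λ n + x.ζ n * x.Λ l

/-- The degree one unit `λ = m_(a,m) / Λ_a` of the standard chart. -/
def GenPt.lmb (x : GenPt κ L) : L := x.m (0, false) (1, false) / x.Λ (0, false)

theorem GenPt.hQ (x : GenPt κ L) : ∑ i : Fin 4, x.ζ (i, false) * x.ζ (i, true) = 0 := by
  have := (x.ker (polyQ k)).2 (Ideal.subset_span (by simp))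
  simpa [polyQ] using this

theorem GenPt.hF (x : GenPt κ L) : ∑ l : Idx, algebraMap k L (κ l) * x.ζ l ^ 3 = 0 := by
  have := (x.ker (polyF κ)).2 (Ideal.subset_span (by simp))
  simpa [polyF] using this

/-- The permutations of the coordinates `s₀ = (a m)(a* m*)`, `s₁ = (m p)(m* p*)`,
`s₂ = (p q)(p* q*)` and `f = (q q*)`. -/
def mv (i : Fin 4) (l : Idx) : Idx :=
  if i = 0 then (Equiv.swap 0 1 l.1, l.2)
  else if i = 1 then (Equiv.swap 1 2 l.1, l.2)
  else if i = 2 then (Equiv.swap 2 3 l.1, l.2)
  else (l.1, if l.1 = 3 then !l.2 else l.2)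

theorem mv_mv (i : Fin 4) (l : Idx) : mv i (mv i l) = l := by
  revert i l; decide

theorem mv_star (i : Fin 4) (l : Idx) : mv i (star l) = star (mv i l) := by
  revert i l; decide

/-- The labelling of the coordinates belonging to a word in the generators. -/
def lab : List (Fin 4) → Idx → Idx
  | [], l => l
  | i :: w, l => lab w (mv i l)

theorem lab_star (w : List (Fin 4)) (l : Idx) : lab w (star l) = star (lab w l) := by
  induction w generalizing l with
  | nil => rfl
  | cons i w ih => simp only [lab, mv_star, ih]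

theorem star_star (l : Idx) : star (star l) = l := by
  revert l; decide

/-- The ideal `(Q, F)` is stable under relabelling. -/
theorem mv_ideal (κ : Idx → k) (i : Fin 4) (p : MvPolynomial Idx k)
    (hp : p ∈ Ideal.span ({polyQ k, polyF κ} : Set (MvPolynomial Idx k))) :
    rename (mv i) p ∈
      Ideal.span ({polyQ k, polyF (fun l => κ (mv i l))} : Set (MvPolynomial Idx k)) := by
  have hinj : Function.Injective (mv i) := fun a b h => by rw [← mv_mv i a, h, mv_mv]
  let e : Idx ≃ Idx := ⟨mv i, mv i, mv_mv i, mv_mv i⟩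
  have hF : rename (mv i) (polyF κ) = polyF (fun l => κ (mv i l)) := by
    rw [polyF, polyF, map_sum]
    rw [← Equiv.sum_comp e]
    refine Finset.sum_congr rfl fun l _ => ?_
    show rename (mv i) (C (κ (mv i l)) * X (mv i l) ^ 3) = _
    rw [map_mul, map_pow, rename_C, rename_X, mv_mv]
  have hQ : rename (mv i) (polyQ k) = polyQ k := by
    fin_cases i <;> simp [polyQ, mv, Fin.sum_univ_four, Equiv.swap_apply_def] <;> ring
  have hle : Ideal.span ({polyQ k, polyF κ} : Set (MvPolynomial Idx k)) ≤
      (Ideal.span ({polyQ k, polyF (fun l => κ (mv i l))} :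
        Set (MvPolynomial Idx k))).comap (rename (mv i)).toRingHom := by
    rw [Ideal.span_le]
    intro q hq
    simp only [Set.mem_insert_iff, Set.mem_singleton_iff] at hq
    rcases hq with rfl | rfl
    · rw [SetLike.mem_coe, Ideal.mem_comap]
      refine Eq.mpr (congrArg (· ∈ _) hQ) (Ideal.subset_span (by simp))
    · rw [SetLike.mem_coe, Ideal.mem_comap]
      refine Eq.mpr (congrArg (· ∈ _) hF) (Ideal.subset_span (by simp))
  exact hle hp

/-- The generic point relabelled by one generator. -/
def GenPt.mv (x : GenPt κ L) (i : Fin 4) : GenPt (fun l => κ (mv i l)) L where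
  ζ := fun l => x.ζ (FQ.mv i l)
  ker := by
    intro p
    have h1 : aeval (fun l => x.ζ (FQ.mv i l)) p = aeval x.ζ (rename (FQ.mv i) p) := by
      rw [aeval_rename]; rfl
    rw [h1, x.ker]
    constructor
    · intro h
      have := mv_ideal κ i _ h
      rw [rename_rename] at this
      have hid : (FQ.mv i ∘ FQ.mv i) = id := funext fun l => mv_mv i l
      rwa [hid, rename_id_apply] at this
    · intro h
      have := mv_ideal (fun l => κ (FQ.mv i l)) i _ h
      simpa only [mv_mv] using this

/-- The coefficients relabelled by a word. -/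
def labκ (κ : Idx → k) : List (Fin 4) → Idx → k
  | [] => κ
  | i :: w => fun l => labκ κ w (mv i l)

theorem labκ_eq (κ : Idx → k) (w : List (Fin 4)) (l : Idx) : labκ κ w l = κ (lab w l) := by
  induction w generalizing l with
  | nil => rfl
  | cons i w ih => simp only [labκ, lab, ih]

/-- The generic point relabelled by a word. -/
def GenPt.lab (x : GenPt κ L) : (w : List (Fin 4)) → GenPt (labκ κ w) L
  | [] => x
  | i :: w => (x.lab w).mv i

theorem GenPt.lab_ζ (x : GenPt κ L) (w : List (Fin 4)) (l : Idx) :
    (x.lab w).ζ l = x.ζ (FQ.lab w l) := by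
  induction w generalizing l with
  | nil => rfl
  | cons i w ih => exact ih (FQ.mv i l)

end FQ
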