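import Mathlib

/-!
# Separable rational connectedness of smooth projective Fano varieties: definitions

`k` is a field, `X` a scheme over `Spec k` with structure morphism `s : X ⟶ Spec (.of k)`.
-/

open CategoryTheory AlgebraicGeometry TopologicalSpace

universe u

noncomputable section

namespace FQ

attribute [local instance] MvPolynomial.gradedAlgebra

/-- For a graded ring `𝒜` and elements `f`, `g` of the same degree: the function `g / f` on the
open subset `D₊(f)` of `Proj 𝒜`. -/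
def ratio {σ A : Type u} [CommRing A] [SetLike σ A] [AddSubgroupClass σ A] (𝒜 : ℕ → σ)
    [GradedRing 𝒜] {f g : A} {d : ℕ} (hf : f ∈ 𝒜 d) (hg : g ∈ 𝒜 d) :
    Γ(Proj 𝒜, Proj.basicOpen 𝒜 f) :=
  (Proj.awayToSection 𝒜 f).hom
    (HomogeneousLocalization.Away.mk 𝒜 hf 1 g (by simpa using hg))

section Projective

variable (k : Type u) [CommRing k] (n : ℕ)

/-- Projective space `ℙⁿ` over `k`: `Proj k[x₀, …, xₙ]`. -/
def PP : Scheme.{u} := Proj (MvPolynomial.homogeneousSubmodule (Fin (n + 1)) k)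

/-- The structure morphism `ℙⁿ ⟶ Spec k`. -/
def PP.str : PP k n ⟶ Spec (.of k) :=
  Proj.toSpecZero (MvPolynomial.homogeneousSubmodule (Fin (n + 1)) k) ≫
    Spec.map (CommRingCat.ofHom
      (algebraMap k (MvPolynomial.homogeneousSubmodule (Fin (n + 1)) k 0)))

/-- The standard open subset `D₊(xᵢ)` of `ℙⁿ`. -/
def PP.chart (i : Fin (n + 1)) : (PP k n).Opens :=
  Proj.basicOpen (MvPolynomial.homogeneousSubmodule (Fin (n + 1)) k) (MvPolynomial.X i)

/-- The function `xⱼ / xᵢ` on the standard open subset `D₊(xᵢ)`. -/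
def PP.coord (i j : Fin (n + 1)) : Γ(PP k n, PP.chart k n i) :=
  ratio (MvPolynomial.homogeneousSubmodule (Fin (n + 1)) k)
    (MvPolynomial.isHomogeneous_X k i) (MvPolynomial.isHomogeneous_X k j)

end Projective

section Schemes

variable {k : Type u} [Field k] {X Y : Scheme.{u}}

/-- The scalars: the ring homomorphism `k → Γ(X, U)` of a `k`-scheme `X`. -/
def scal (s : X ⟶ Spec (.of k)) (U : X.Opens) : k →+* Γ(X, U) :=
  (s.appLE ⊤ U le_top).hom.comp (Scheme.ΓSpecIso (.of k)).inv.hom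

/-- Pull back of functions: `Γ(X, U) → Γ(Y, W ∩ f⁻¹ U)`. -/
def pull (f : Y ⟶ X) (W : Y.Opens) (U : X.Opens) : Γ(X, U) →+* Γ(Y, W ⊓ f ⁻¹ᵁ U) :=
  (f.appLE U (W ⊓ f ⁻¹ᵁ U) inf_le_right).hom

/-- Restriction of functions from `U` to a smaller open set `V`. -/
def res {X : Scheme.{u}} {U V : X.Opens} (h : V ≤ U) : Γ(X, U) →+* Γ(X, V) :=
  (X.presheaf.map (homOfLE h).op).hom

/-- A section over the open set `W ⊆ Y` of the pull back `f^* T_X` of the tangent sheaf of the
`k`-scheme `X` along `f : Y ⟶ X`: a `k`-derivation `𝒪_X → f_* 𝒪_W`, that is, a family of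
`k`-derivations `Γ(X, U) → Γ(Y, W ∩ f⁻¹ U)` for all open `U ⊆ X` which is compatible
with restrictions. (For `X` smooth over `k` the sheaf `Ω_X` is locally free of finite rank and
`Hom(Ω_X, f_* 𝒪_W) = Hom(f^* Ω_X, 𝒪_W) = Γ(W, f^* T_X)`.) -/
@[ext]
structure TangentSection (s : X ⟶ Spec (.of k)) (f : Y ⟶ X) (W : Y.Opens) where
  toFun : ∀ U : X.Opens, Γ(X, U) → Γ(Y, W ⊓ f ⁻¹ᵁ U)
  map_add' : ∀ (U : X.Opens) (a b : Γ(X, U)), toFun U (a + b) = toFun U a + toFun U b
  leibniz' : ∀ (U : X.Opens) (a b : Γ(X, U)),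
    toFun U (a * b) = pull f W U a * toFun U b + pull f W U b * toFun U a
  map_scal' : ∀ (U : X.Opens) (c : k), toFun U (scal s U c) = 0
  map_res' : ∀ (U V : X.Opens) (h : V ≤ U) (a : Γ(X, U)),
    toFun V (res h a) = res (inf_le_inf_left W (f.preimage_mono h)) (toFun U a)

/-- A family `e₁, …, eₙ` of sections of `f^* T_X` over `W` is a frame if it defines an isomorphism
`𝒪_W ^ n ≅ (f^* T_X)|_W`: every section over every open `V ⊆ W` is a unique linear
combination of the restrictions of the `eᵢ` with coefficients in `Γ(Y, V)`. -/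
def IsFrame {s : X ⟶ Spec (.of k)} {f : Y ⟶ X} {W : Y.Opens} {n : ℕ}
    (e : Fin n → TangentSection s f W) : Prop :=
  ∀ (V : Y.Opens) (hV : V ≤ W) (σ : TangentSection s f V), ∃! g : Fin n → Γ(Y, V),
    ∀ (U : X.Opens) (a : Γ(X, U)), σ.toFun U a =
      ∑ i, res inf_le_left (g i) * res (inf_le_inf_right (f ⁻¹ᵁ U) hV) ((e i).toFun U a)

/-- For sections `σ` over `W` and `σ'` over `W'` of `f^* T_X`, a function `t` on `W` and an
integer `a`: the equality `t ^ a⁻ • σ' = t ^ a⁺ • σ` over `W ∩ W'`, where `a⁻ = max (-a) 0` and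
`a⁺ = max a 0`. If `t` is a unit on `W ∩ W'` it says `σ' = t ^ a • σ` over `W ∩ W'`. -/
def IsTwist {s : X ⟶ Spec (.of k)} {f : Y ⟶ X} {W W' : Y.Opens} (t : Γ(Y, W)) (a : ℤ)
    (σ : TangentSection s f W) (σ' : TangentSection s f W') : Prop :=
  ∀ (U : X.Opens) (b : Γ(X, U)),
    (res (inf_le_left.trans inf_le_left) t ^ (-a).toNat *
      res (inf_le_inf_right (f ⁻¹ᵁ U) inf_le_right) (σ'.toFun U b) :
        Γ(Y, (W ⊓ W') ⊓ f ⁻¹ᵁ U)) =
      res (inf_le_left.trans inf_le_left) t ^ a.toNat *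
        res (inf_le_inf_right (f ⁻¹ᵁ U) inf_le_left) (σ.toFun U b)

/-- `f^* T_X ≅ 𝒪(a₁) ⊕ ⋯ ⊕ 𝒪(aₙ)` for a morphism `f : ℙ¹ ⟶ X` and integers `aᵢ`, given by a
frame `e` of `f^* T_X` over `D₊(x₀)` and a frame `e'` over `D₊(x₁)` with
`e'ᵢ = (x₁ / x₀) ^ aᵢ • eᵢ` over `D₊(x₀) ∩ D₊(x₁)` (where `x₁ / x₀` is a unit). -/
def SplitsAs (s : X ⟶ Spec (.of k)) (f : PP k 1 ⟶ X) {n : ℕ} (a : Fin n → ℤ) : Prop :=
  ∃ (e : Fin n → TangentSection s f (PP.chart k 1 0))
    (e' : Fin n → TangentSection s f (PP.chart k 1 1)),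
    IsFrame e ∧ IsFrame e' ∧ ∀ i : Fin n, IsTwist (PP.coord k 1 0 1) (a i) (e i) (e' i)

/-- The smooth projective `k`-scheme `X` is separably rationally connected: there is a
`k`-morphism `f : ℙ¹ ⟶ X` such that `f^* T_X ≅ 𝒪(a₁) ⊕ ⋯ ⊕ 𝒪(aₙ)` with every `aᵢ > 0`. -/
def IsSeparablyRationallyConnected (s : X ⟶ Spec (.of k)) : Prop :=
  ∃ f : PP k 1 ⟶ X, f ≫ s = PP.str k 1 ∧
    ∃ (n : ℕ) (a : Fin n → ℤ), (∀ i, 0 < a i) ∧ SplitsAs s f a

/-- `X` is projective over `k`: it has a closed immersion over `k` into some `ℙᴺ`. -/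
def IsProjective (s : X ⟶ Spec (.of k)) : Prop :=
  ∃ (N : ℕ) (i : X ⟶ PP k N), IsClosedImmersion i ∧ i ≫ PP.str k N = s

/-- Let `X` be smooth over `k` of dimension `n`. A global section of the `m`-th power of the
anticanonical sheaf `ω_X⁻¹ = Λⁿ T_X`, that is, a homomorphism `(Λⁿ Ω_X)^{⊗ m} → 𝒪_X`, given
as a family of maps in `m` blocks of `n` variables each on every `Γ(X, U)`, which are
`k`-derivations in each variable, alternating in each block and compatible with restrictions: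
`toFun U g` is the value on `⨂ᵢ (d g_{i1} ∧ ⋯ ∧ d g_{in})`. -/
structure AnticanonicalSection (s : X ⟶ Spec (.of k)) (n m : ℕ) where
  toFun : ∀ U : X.Opens, (Fin m → Fin n → Γ(X, U)) → Γ(X, U)
  map_add' : ∀ (U : X.Opens) (g : Fin m → Fin n → Γ(X, U)) (i : Fin m) (j : Fin n)
    (a b : Γ(X, U)),
    toFun U (Function.update g i (Function.update (g i) j (a + b))) =
      toFun U (Function.update g i (Function.update (g i) j a)) +
        toFun U (Function.update g i (Function.update (g i) j b))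
  leibniz' : ∀ (U : X.Opens) (g : Fin m → Fin n → Γ(X, U)) (i : Fin m) (j : Fin n)
    (a b : Γ(X, U)),
    toFun U (Function.update g i (Function.update (g i) j (a * b))) =
      a * toFun U (Function.update g i (Function.update (g i) j b)) +
        b * toFun U (Function.update g i (Function.update (g i) j a))
  map_scal' : ∀ (U : X.Opens) (g : Fin m → Fin n → Γ(X, U)) (i : Fin m) (j : Fin n) (c : k),
    toFun U (Function.update g i (Function.update (g i) j (scal s U c))) = 0
  alternating' : ∀ (U : X.Opens) (g : Fin m → Fin n → Γ(X, U)) (i : Fin m) (j j' : Fin n),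
    j ≠ j' → g i j = g i j' → toFun U g = 0
  map_res' : ∀ (U V : X.Opens) (h : V ≤ U) (g : Fin m → Fin n → Γ(X, U)),
    toFun V (fun i j => res h (g i j)) = res h (toFun U g)

/-- The open set `X_σ` of the points at which the section `σ` of `ω_X^{-m}` generates. -/
def AnticanonicalSection.locus {s : X ⟶ Spec (.of k)} {n m : ℕ}
    (σ : AnticanonicalSection s n m) : X.Opens :=
  ⨆ (U : X.Opens) (g : Fin m → Fin n → Γ(X, U)), X.basicOpen (σ.toFun U g)

/-- The anticanonical divisor `-K_X` of a smooth proper `k`-scheme of dimension `n` is ample: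
for every point `x` there are `m > 0` and a section `σ` of `ω_X^{-m}` such that `x ∈ X_σ` and
`X_σ` is affine. -/
def AnticanonicalIsAmple (s : X ⟶ Spec (.of k)) (n : ℕ) : Prop :=
  ∀ x : X, ∃ m : ℕ, 0 < m ∧ ∃ σ : AnticanonicalSection s n m, x ∈ σ.locus ∧ IsAffineOpen σ.locus

/-- `X` is a smooth projective Fano variety over `k` of dimension `n` (`IsProper` includes
separated and of finite type). -/
structure IsSmoothFano (s : X ⟶ Spec (.of k)) (n : ℕ) : Prop where
  integral : IsIntegral X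
  proper : IsProper s
  projective : IsProjective s
  smooth : SmoothOfRelativeDimension n s
  ample : AnticanonicalIsAmple s n

end Schemes

end FQ
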