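import Mathlib
import Pool.Agent.Helper41.FQ.Def
import Pool.Agent.FQ.Field

/-!
# The interface between schemes and subrings of the field `L`
-/

open CategoryTheory AlgebraicGeometry TopologicalSpace

universe u

noncomputable section

namespace FQ

variable {k : Type u} [Field k] {L : Type u} [Field L] [Algebra k L]

/-- The closure of the `L`-point `(e₀ : ⋯ : e_N)` of `ℙᴺ`: an integral projective `k`-scheme `X`
with an embedding `ev` of its function field into `L`, covered by the affine open sets `W i`
with coordinate ring `k[e_j / e_i]`. -/
structure Model {N : ℕ} (e : Fin (N + 1) → L) where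
  X : Scheme.{u}
  s : X ⟶ Spec (.of k)
  integral : IsIntegral X
  proper : IsProper s
  projective : IsProjective s
  ev : X.functionField →+* L
  ev_scal : ∀ c : k, ev (scalK s c) = algebraMap k L c
  W : Fin (N + 1) → X.Opens
  affine : ∀ i, IsAffineOpen (W i)
  nonempty : ∀ i, Nonempty (W i)
  cover : ⨆ i, W i = ⊤
  range : ∀ i (z : L), (∃ y : Γ(X, W i), ev (X.germToFunctionField (W i) y) = z) ↔
    z ∈ Algebra.adjoin k (Set.range fun j => e j / e i)
  basic : ∀ i j (y : Γ(X, W i)), ev (X.germToFunctionField (W i) y) = e j / e i →
    X.basicOpen y = W i ⊓ W j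

attribute [instance] Model.integral Model.proper Model.nonempty

variable {N : ℕ} {e : Fin (N + 1) → L}

/-- The function field of `X` as a `k`-algebra. -/
instance Model.algebraK (M : Model (k := k) e) : Algebra k M.X.functionField :=
  (scalK M.s).toAlgebra

/-- The embedding of the function field as a homomorphism of `k`-algebras. -/
def Model.evA (M : Model (k := k) e) : M.X.functionField →ₐ[k] L :=
  { M.ev with commutes' := M.ev_scal }

theorem Model.evA_apply (M : Model (k := k) e) (z : M.X.functionField) : M.evA z = M.ev z := rfl

/-- The value in `L` of a function on a nonempty open set. -/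
def Model.val (M : Model (k := k) e) (U : M.X.Opens) [Nonempty U] : Γ(M.X, U) →+* L :=
  M.ev.comp (M.X.germToFunctionField U).hom

end FQ
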