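import Mathlib
import Pool.Agent.Helper41.FQ.Gen

/-!
# The quadratic extension `B[τ]`, `τ² = Z_a w²`, of the chart ring and the map `ψ`

`ψ : k[z_l] → B[τ]`, `z_l ↦ h_l + τ Λ_l` kills `Q` and `F`.
-/

open MvPolynomial

universe u v

noncomputable section

namespace FQ

variable {k : Type u} [Field k] (κ : Idx → k)

/-- The polynomial `Λ_l = κ_(star l) z_(star l)²`. -/
def cLam (l : Idx) : MvPolynomial Idx k := C (κ (star l)) * X (star l) ^ 2

/-- The polynomial `m_(l,n) = z_l Λ_n + z_n Λ_l`. -/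
def cm (l n : Idx) : MvPolynomial Idx k := X l * cLam κ n + X n * cLam κ l

/-- The polynomial `τ² - Z_a w²`. -/
def extPoly : Polynomial (ChartRing κ) :=
  Polynomial.X ^ 2 -
    Polynomial.C ((ChartRing.pt κ).Z (0, false) * (ChartRing.pt κ).w ^ 2)

/-- The ring `B[τ]`. -/
abbrev ExtRing : Type u := AdjoinRoot (extPoly κ)

/-- The inclusion of the chart ring. -/
def inclE : ChartRing κ →ₐ[k] ExtRing κ := IsScalarTower.toAlgHom k (ChartRing κ) (ExtRing κ)

/-- The map `ψ`, `z_l ↦ h_l + τ Λ_l`. -/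
def psi : MvPolynomial Idx k →ₐ[k] ExtRing κ :=
  aeval fun l => inclE κ ((ChartRing.pt κ).h l) +
    AdjoinRoot.root (extPoly κ) * inclE κ (lam κ (ChartRing.pt κ).Z l)

variable {κ} {L : Type v} [Field L] [Algebra k L]

theorem GenPt.aeval_cLam (x : GenPt κ L) (l : Idx) : aeval x.ζ (cLam κ l) = x.Λ l := by
  simp [cLam, GenPt.Λ]

theorem GenPt.aeval_cm (x : GenPt κ L) (l n : Idx) : aeval x.ζ (cm κ l n) = x.m l n := by
  simp [cm, GenPt.m, x.aeval_cLam]

/-- A generic point with all the non vanishing properties (they hold automatically if `k` is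
algebraically closed of characteristic two). -/
structure GP (κ : Idx → k) (L : Type v) [Field L] [Algebra k L] extends GenPt κ L where
  good : Good κ
  two : (2 : L) = 0
  Λ_ne : ∀ l, toGenPt.Λ l ≠ 0
  m_ne : ∀ l n, n ≠ l → n ≠ star l → toGenPt.m l n ≠ 0

end FQ
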