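import Mathlib
import Pool.Agent.Helper41.FQ.Psi

/-!
# The chart values of a generic point
-/

open MvPolynomial

universe u v

noncomputable section

namespace FQ

variable {k : Type u} [Field k] {κ : Idx → k} {L : Type v} [Field L] [Algebra k L]

/-- `Z_l = ζ_l² / λ²`. -/
def GP.cZ (x : GP κ L) (l : Idx) : L := x.ζ l ^ 2 / x.toGenPt.lmb ^ 2

/-- `w = λ² / Λ_a`. -/
def GP.cw (x : GP κ L) : L := x.toGenPt.lmb ^ 2 / x.toGenPt.Λ (0, false)

/-- `h_l = m_(a,l) / m_(a,m)`. -/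
def GP.ch (x : GP κ L) (l : Idx) : L :=
  x.toGenPt.m (0, false) l / x.toGenPt.m (0, false) (1, false)

theorem GP.mam_ne (x : GP κ L) : x.toGenPt.m (0, false) (1, false) ≠ 0 :=
  x.m_ne _ _ (by decide) (by decide)

theorem GP.lmb_ne (x : GP κ L) : x.toGenPt.lmb ≠ 0 :=
  div_ne_zero x.mam_ne (x.Λ_ne _)

/-- The relation coming from `Q`. -/
theorem GP.relQ (x : GP κ L) : x.ζ (0, false) * x.ζ (0, true) + x.ζ (1, false) * x.ζ (1, true) +
    x.ζ (2, false) * x.ζ (2, true) + x.ζ (3, false) * x.ζ (3, true) = 0 := by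
  have := x.toGenPt.hQ
  rwa [Fin.sum_univ_four] at this

/-- The relation coming from `F`. -/
theorem GP.relF (x : GP κ L) :
    x.ζ (0, false) * x.toGenPt.Λ (0, true) + x.ζ (0, true) * x.toGenPt.Λ (0, false) +
    x.ζ (1, false) * x.toGenPt.Λ (1, true) + x.ζ (1, true) * x.toGenPt.Λ (1, false) +
    x.ζ (2, false) * x.toGenPt.Λ (2, true) + x.ζ (2, true) * x.toGenPt.Λ (2, false) +
    x.ζ (3, false) * x.toGenPt.Λ (3, true) + x.ζ (3, true) * x.toGenPt.Λ (3, false) = 0 := by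
  have h := x.toGenPt.hF
  rw [Fintype.sum_prod_type] at h
  simp only [Fin.sum_univ_four, Fintype.sum_bool] at h
  simp only [GenPt.Λ, star, Bool.not_true, Bool.not_false]
  linear_combination h

theorem GP.lam_cZ (x : GP κ L) (l : Idx) :
    lam κ x.cZ l = x.toGenPt.Λ l / x.toGenPt.lmb ^ 2 := by
  rw [lam, GP.cZ, GenPt.Λ, mul_div_assoc]

theorem GP.ch_a (x : GP κ L) : x.ch (0, false) = 0 := by
  rw [GP.ch, div_eq_zero_iff]
  left
  rw [GenPt.m]
  linear_combination (x.ζ (0, false) * x.toGenPt.Λ (0, false)) * x.two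

theorem GP.ch_m (x : GP κ L) : x.ch (1, false) = 1 := div_self x.mam_ne

theorem GP.eq_w (x : GP κ L) : x.cw * lam κ x.cZ (0, false) = 1 := by
  rw [x.lam_cZ, GP.cw]
  have h1 := x.lmb_ne
  have h2 := x.Λ_ne (0, false)
  field_simp

theorem GP.eq_Z (x : GP κ L) (l : Idx) :
    x.cZ l = x.ch l ^ 2 + x.cZ (0, false) * x.cw ^ 2 * lam κ x.cZ l ^ 2 := by
  rw [x.lam_cZ, GP.cw, GP.ch, GP.cZ, GP.cZ]
  have h1 := x.lmb_ne
  have h2 := x.Λ_ne (0, false)
  have h3 := x.mam_ne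
  have h4 : x.toGenPt.m (0, false) (1, false) = x.toGenPt.lmb * x.toGenPt.Λ (0, false) := by
    rw [GenPt.lmb]; field_simp
  rw [h4]
  field_simp
  rw [GenPt.m]
  linear_combination (-(x.ζ (0, false)) ^ 2 * x.toGenPt.Λ l ^ 2 -
    x.ζ (0, false) * x.ζ l * x.toGenPt.Λ l * x.toGenPt.Λ (0, false)) * x.two

theorem GP.mam_eq (x : GP κ L) :
    x.toGenPt.m (0, false) (1, false) = x.toGenPt.lmb * x.toGenPt.Λ (0, false) := by
  have h2 := x.Λ_ne (0, false)
  rw [GenPt.lmb]; field_simp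

theorem GP.eq_as (x : GP κ L) : x.ch (0, true) =
    x.cw * (lam κ x.cZ (1, true) * x.ch (1, false) + lam κ x.cZ (1, false) * x.ch (1, true) +
    lam κ x.cZ (2, true) * x.ch (2, false) + lam κ x.cZ (2, false) * x.ch (2, true) +
    lam κ x.cZ (3, true) * x.ch (3, false) + lam κ x.cZ (3, false) * x.ch (3, true)) := by
  simp only [x.lam_cZ, GP.cw, GP.ch]
  have h1 := x.lmb_ne
  have h2 := x.Λ_ne (0, false)
  have h3 := x.mam_ne
  have h5 : x.toGenPt.Λ (0, false) * x.toGenPt.m (0, false) (0, true) =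
      x.toGenPt.Λ (1, true) * x.toGenPt.m (0, false) (1, false) +
      x.toGenPt.Λ (1, false) * x.toGenPt.m (0, false) (1, true) +
      x.toGenPt.Λ (2, true) * x.toGenPt.m (0, false) (2, false) +
      x.toGenPt.Λ (2, false) * x.toGenPt.m (0, false) (2, true) +
      x.toGenPt.Λ (3, true) * x.toGenPt.m (0, false) (3, false) +
      x.toGenPt.Λ (3, false) * x.toGenPt.m (0, false) (3, true) := by
    simp only [GenPt.m]
    linear_combination x.toGenPt.Λ (0, false) * x.relF - (x.ζ (0, false) *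
      (x.toGenPt.Λ (1, true) * x.toGenPt.Λ (1, false) + x.toGenPt.Λ (2, true) *
      x.toGenPt.Λ (2, false) + x.toGenPt.Λ (3, true) * x.toGenPt.Λ (3, false)) +
      x.toGenPt.Λ (0, false) * (x.ζ (1, false) * x.toGenPt.Λ (1, true) +
        x.ζ (1, true) * x.toGenPt.Λ (1, false) + x.ζ (2, false) * x.toGenPt.Λ (2, true) +
        x.ζ (2, true) * x.toGenPt.Λ (2, false) + x.ζ (3, false) * x.toGenPt.Λ (3, true) +
        x.ζ (3, true) * x.toGenPt.Λ (3, false))) * x.two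
  have h6 : ∀ a b c d e f g m l A : L, m ≠ 0 → l ≠ 0 → A ≠ 0 → A * a = b + c + d + e + f + g →
      a / m = l ^ 2 / A * (b / (l ^ 2 * m) + c / (l ^ 2 * m) + d / (l ^ 2 * m) +
        e / (l ^ 2 * m) + f / (l ^ 2 * m) + g / (l ^ 2 * m)) := by
    intro a b c d e f g m l A hm hl hA h
    field_simp
    linear_combination h
  rw [h6 _ _ _ _ _ _ _ _ _ _ h3 h1 h2 h5]
  simp only [div_mul_div_comm]

theorem GP.eq_ms (x : GP κ L) : x.ch (1, true) =
    x.ch (2, false) * x.ch (2, true) + x.ch (3, false) * x.ch (3, true) +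
    x.cZ (0, false) * x.cw ^ 2 * ∑ i : Fin 4, lam κ x.cZ (i, false) * lam κ x.cZ (i, true) := by
  rw [Fin.sum_univ_four]
  simp only [x.lam_cZ, GP.cw, GP.ch, GP.cZ]
  have h1 := x.lmb_ne
  have h2 := x.Λ_ne (0, false)
  have h3 := x.mam_ne
  have h4 := x.mam_eq
  have h5 : x.toGenPt.m (0, false) (1, false) * x.toGenPt.m (0, false) (1, true) =
      x.toGenPt.m (0, false) (2, false) * x.toGenPt.m (0, false) (2, true) +
      x.toGenPt.m (0, false) (3, false) * x.toGenPt.m (0, false) (3, true) +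
      x.ζ (0, false) ^ 2 * (x.toGenPt.Λ (0, false) * x.toGenPt.Λ (0, true) +
        x.toGenPt.Λ (1, false) * x.toGenPt.Λ (1, true) +
        x.toGenPt.Λ (2, false) * x.toGenPt.Λ (2, true) +
        x.toGenPt.Λ (3, false) * x.toGenPt.Λ (3, true)) := by
    simp only [GenPt.m]
    linear_combination x.toGenPt.Λ (0, false) ^ 2 * x.relQ +
      x.ζ (0, false) * x.toGenPt.Λ (0, false) * x.relF -
      (x.ζ (0, false) ^ 2 * (x.toGenPt.Λ (2, false) * x.toGenPt.Λ (2, true) +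
        x.toGenPt.Λ (3, false) * x.toGenPt.Λ (3, true) +
        x.toGenPt.Λ (0, false) * x.toGenPt.Λ (0, true)) +
       x.ζ (0, false) * x.toGenPt.Λ (0, false) * (x.ζ (2, false) * x.toGenPt.Λ (2, true) +
         x.ζ (2, true) * x.toGenPt.Λ (2, false) + x.ζ (3, false) * x.toGenPt.Λ (3, true) +
         x.ζ (3, true) * x.toGenPt.Λ (3, false) + x.ζ (0, true) * x.toGenPt.Λ (0, false)) +
       x.toGenPt.Λ (0, false) ^ 2 * (x.ζ (2, false) * x.ζ (2, true) +
         x.ζ (3, false) * x.ζ (3, true))) * x.two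
  have h6 : ∀ a b c d e z s m l A : L, m ≠ 0 → l ≠ 0 → A ≠ 0 → m = l * A →
      m * a = b * c + d * e + z * s →
      a / m = b / m * (c / m) + d / m * (e / m) + z / l ^ 2 * (l ^ 2 / A) ^ 2 *
        (s / (l ^ 2 * l ^ 2)) := by
    intro a b c d e z s m l A hm hl hA hmA h
    subst hmA
    field_simp
    linear_combination h
  rw [h6 _ _ _ _ _ _ _ _ _ _ h3 h1 h2 h4 h5]
  congr 2
  field_simp

/-- The values of the chart functions at the generic point. -/
def GP.chartPt (x : GP κ L) : ChartPt κ L where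
  Z := x.cZ
  w := x.cw
  h := x.ch
  h_a := x.ch_a
  h_m := x.ch_m
  eq_ms := x.eq_ms
  eq_as := x.eq_as
  eq_Z := fun l _ => x.eq_Z l
  eq_w := x.eq_w

theorem good_mv {κ : Idx → k} (hκ : Good κ) (i : Fin 4) : Good fun l => κ (mv i l) := by
  refine ⟨fun l => hκ.1 _, fun I hI => ?_⟩
  have key : ∃ σ : Fin 4 ≃ Fin 4, ∀ j : Fin 4,
      κ (mv i (j, false)) * κ (mv i (j, true)) = κ (σ j, false) * κ (σ j, true) := by
    fin_cases i
    · exact ⟨Equiv.swap 0 1, fun j => rfl⟩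
    · exact ⟨Equiv.swap 1 2, fun j => rfl⟩
    · exact ⟨Equiv.swap 2 3, fun j => rfl⟩
    · refine ⟨Equiv.refl _, fun j => ?_⟩
      by_cases h : j = 3
      · subst h
        exact mul_comm _ _
      · simp [mv, h]
  obtain ⟨σ, hσ⟩ := key
  simp only [hσ]
  have := hκ.2 (I.map σ.toEmbedding) (by simpa using hI)
  rwa [Finset.sum_map] at this

theorem GenPt.mv_Λ (x : GenPt κ L) (i : Fin 4) (l : Idx) : (x.mv i).Λ l = x.Λ (FQ.mv i l) := by
  show algebraMap k L (κ (FQ.mv i (star l))) * x.ζ (FQ.mv i (star l)) ^ 2 = _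
  rw [mv_star]
  rfl

theorem GenPt.mv_m (x : GenPt κ L) (i : Fin 4) (l n : Idx) :
    (x.mv i).m l n = x.m (FQ.mv i l) (FQ.mv i n) := by
  rw [GenPt.m, GenPt.m, x.mv_Λ, x.mv_Λ]
  rfl

/-- The relabelled good generic point. -/
def GP.mv (x : GP κ L) (i : Fin 4) : GP (fun l => κ (FQ.mv i l)) L where
  toGenPt := x.toGenPt.mv i
  good := good_mv x.good i
  two := x.two
  Λ_ne := fun l => by rw [GenPt.mv_Λ]; exact x.Λ_ne _
  m_ne := fun l n h1 h2 => by
    rw [GenPt.mv_m]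
    refine x.m_ne _ _ (fun h => h1 ?_) fun h => h2 ?_
    · rw [← mv_mv i n, h, mv_mv]
    · rw [← mv_mv i n, h, ← mv_star, mv_mv]

/-- The good generic point relabelled by a word. -/
def GP.lab (x : GP κ L) : (w : List (Fin 4)) → GP (labκ κ w) L
  | [] => x
  | i :: w => (x.lab w).mv i

theorem GP.lab_toGenPt (x : GP κ L) (w : List (Fin 4)) : (x.lab w).toGenPt = x.toGenPt.lab w := by
  induction w with
  | nil => rfl
  | cons i w ih =>
    show (x.lab w).toGenPt.mv i = (x.toGenPt.lab w).mv i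
    rw [ih]

theorem GP.lab_ζ (x : GP κ L) (w : List (Fin 4)) (l : Idx) :
    (x.lab w).ζ l = x.ζ (FQ.lab w l) := by
  rw [GP.lab_toGenPt, GenPt.lab_ζ]

theorem GP.lab_Λ (x : GP κ L) (w : List (Fin 4)) (l : Idx) :
    (x.lab w).toGenPt.Λ l = x.toGenPt.Λ (FQ.lab w l) := by
  rw [GenPt.Λ, x.lab_ζ, lab_star, labκ_eq, lab_star]
  rfl

theorem GP.lab_m (x : GP κ L) (w : List (Fin 4)) (l n : Idx) :
    (x.lab w).toGenPt.m l n = x.toGenPt.m (FQ.lab w l) (FQ.lab w n) := by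
  rw [GenPt.m, x.lab_Λ, x.lab_Λ, x.lab_ζ, x.lab_ζ]
  rfl

end FQ
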