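import Pool.Agent.FQ.Field

/-!
Multiderivations of the function field: see `Pool/Agent/FQ/Field.lean` (`FQ.MultiDer`,
`FQ.scalK`, `FQ.MultiDer.smul`, `FQ.MultiDer.toSection`, `FQ.MultiDer.locus_iff`).
-/
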