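import Mathlib
import Pool.Agent.Helper41.FQ.CP
import Pool.Agent.Helper41.FQ.Iface

/-!
# The coordinates `ζ_i² ζ_j² ζ_l²` and `m_(i,j) m_(l,n)`
-/

open MvPolynomial AlgebraicGeometry

universe u

noncomputable section

namespace FQ

variable {k : Type u} [Field k] {κ : Idx → k} {L : Type u} [Field L] [Algebra k L]

/-- The set of the nonzero elements `ζ_i² ζ_j² ζ_l²` and `m_(i,j) m_(l,n)`. -/
def GP.gens (x : GP κ L) : Set L :=
  {g | g ≠ 0 ∧ ((∃ i j l : Idx, g = x.ζ i ^ 2 * x.ζ j ^ 2 * x.ζ l ^ 2) ∨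
    ∃ i j l n : Idx, g = x.toGenPt.m i j * x.toGenPt.m l n)}

/-- `ζ_(star a)⁶`. -/
def GP.gA (x : GP κ L) : L := x.ζ (0, true) ^ 6

/-- `m_(a,m)²`. -/
def GP.gM (x : GP κ L) : L := x.toGenPt.m (0, false) (1, false) ^ 2

theorem GP.ζ_ne (x : GP κ L) (l : Idx) : x.ζ l ≠ 0 := by
  intro h
  refine x.Λ_ne (star l) ?_
  rw [GenPt.Λ, star_star, h]
  simp

theorem GP.gA_mem (x : GP κ L) : x.gA ∈ x.gens :=
  ⟨pow_ne_zero _ (x.ζ_ne _), Or.inl ⟨(0, true), (0, true), (0, true), by rw [GP.gA]; ring⟩⟩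

theorem GP.gM_mem (x : GP κ L) : x.gM ∈ x.gens :=
  ⟨pow_ne_zero _ x.mam_ne, Or.inr ⟨(0, false), (1, false), (0, false), (1, false), sq _⟩⟩

theorem lab_surjective (w : List (Fin 4)) : Function.Surjective (lab w) := by
  induction w with
  | nil => exact fun l => ⟨l, rfl⟩
  | cons i w ih =>
    intro l
    obtain ⟨l', hl'⟩ := ih l
    exact ⟨mv i l', by rw [lab, mv_mv, hl']⟩

theorem GP.gens_lab (x : GP κ L) (w : List (Fin 4)) : (x.lab w).gens = x.gens := by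
  ext g
  simp only [GP.gens, Set.mem_setOf_eq, x.lab_ζ, x.lab_m]
  refine and_congr_right fun _ => or_congr ⟨?_, ?_⟩ ⟨?_, ?_⟩
  · rintro ⟨i, j, l, h⟩
    exact ⟨_, _, _, h⟩
  · rintro ⟨i, j, l, h⟩
    obtain ⟨i, rfl⟩ := lab_surjective w i
    obtain ⟨j, rfl⟩ := lab_surjective w j
    obtain ⟨l, rfl⟩ := lab_surjective w l
    exact ⟨i, j, l, h⟩
  · rintro ⟨i, j, l, n, h⟩
    exact ⟨_, _, _, _, h⟩
  · rintro ⟨i, j, l, n, h⟩
    obtain ⟨i, rfl⟩ := lab_surjective w i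
    obtain ⟨j, rfl⟩ := lab_surjective w j
    obtain ⟨l, rfl⟩ := lab_surjective w l
    obtain ⟨n, rfl⟩ := lab_surjective w n
    exact ⟨i, j, l, n, h⟩

theorem GP.gens_finite (x : GP κ L) : x.gens.Finite := by
  have h1 : (Set.range fun t : Idx × Idx × Idx =>
      x.ζ t.1 ^ 2 * x.ζ t.2.1 ^ 2 * x.ζ t.2.2 ^ 2).Finite := Set.finite_range _
  have h2 : (Set.range fun t : Idx × Idx × Idx × Idx =>
      x.toGenPt.m t.1 t.2.1 * x.toGenPt.m t.2.2.1 t.2.2.2).Finite := Set.finite_range _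
  refine (h1.union h2).subset ?_
  rintro g ⟨_, ⟨i, j, l, rfl⟩ | ⟨i, j, l, n, rfl⟩⟩
  · exact Or.inl ⟨(i, j, l), rfl⟩
  · exact Or.inr ⟨(i, j, l, n), rfl⟩

/-- The coordinates of the generic point of `X`. -/
theorem GP.exists_enum (x : GP κ L) :
    ∃ (N : ℕ) (e : Fin (N + 1) → L), Set.range e = x.gens := by
  have hf := x.gens_finite
  have hne : x.gens.Nonempty := ⟨_, x.gA_mem⟩
  obtain ⟨n, e, he⟩ := hf.fin_param
  cases n with
  | zero =>
    exfalso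
    obtain ⟨g, hg⟩ := hne
    rw [← he.2] at hg
    obtain ⟨i, _⟩ := hg
    exact i.elim0
  | succ N => exact ⟨N, e, he.2⟩

/-- The affine open set `U_w = W i ∩ W j` of `X`: `e i = ζ_(star a)⁶` and `e j = m_(a,m)²` for the
relabelling `w`. -/
structure ChartIdx (x : GP κ L) {N : ℕ} (e : Fin (N + 1) → L) where
  w : List (Fin 4)
  i : Fin (N + 1)
  j : Fin (N + 1)
  hi : e i = (x.lab w).gA
  hj : e j = (x.lab w).gM

/-- The open set of a chart. -/
def ChartIdx.U {x : GP κ L} {N : ℕ} {e : Fin (N + 1) → L} (c : ChartIdx x e)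
    (M : Model (k := k) e) : M.X.Opens := M.W c.i ⊓ M.W c.j

instance ChartIdx.nonempty {x : GP κ L} {N : ℕ} {e : Fin (N + 1) → L} (c : ChartIdx x e)
    (M : Model (k := k) e) : Nonempty (c.U M) :=
  ⟨⟨genericPoint M.X, generic_mem (M.W c.i), generic_mem (M.W c.j)⟩⟩

end FQ
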