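import Mathlib
import Pool.Agent.FQ.ImgModel
import Pool.Agent.FQ.GenPtExists
import Pool.Agent.Helper41.FQ.M.Coef
import Pool.Agent.Helper41.FQ.M.NeZero
import Pool.Agent.Helper41.FQ.M.Smooth
import Pool.Agent.Helper41.FQ.M.Ample
import Pool.Agent.Helper41.FQ.M.NotSRC

/-!
# A smooth Fano fivefold in characteristic two which is not separably rationally connected
-/

open CategoryTheory AlgebraicGeometry

universe u

namespace FQ

theorem main (k : Type u) [Field k] [IsAlgClosed k] [CharP k 2] :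
    ∃ (X : Scheme.{u}) (s : X ⟶ Spec (.of k)),
      IsSmoothFano s 5 ∧ ¬ IsSeparablyRationallyConnected s := by
  obtain ⟨κ, hκ⟩ := exists_good k
  have h3 : (3 : k) ≠ 0 := by
    have h2 : (2 : k) = 0 := by exact_mod_cast CharP.cast_eq_zero k 2
    have : (3 : k) = 1 := by linear_combination h2
    rw [this]
    exact one_ne_zero
  obtain ⟨L, _, _, ⟨x₀⟩⟩ := exists_genPt h3 κ hκ.1
  obtain ⟨x, -⟩ := exists_GP hκ x₀
  obtain ⟨N, e, he⟩ := x.exists_enum
  have hne : ∀ i, e i ≠ 0 := fun i => (he ▸ Set.mem_range_self i : e i ∈ x.gens).1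
  obtain ⟨M⟩ := exists_model (k := k) e hne
  exact ⟨M.X, M.s, ⟨M.integral, M.proper, M.projective, model_smooth x he M,
    model_ample x he M⟩, model_not_src x he M⟩

end FQ
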