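import Mathlib
import Pool.Agent.Helper41.FQ.Def

/-!
# The Rees type algebra `⨁ Mⁿ Tⁿ ⊆ L[T]` of a `k`-subspace `M` of a field `L`
-/

open CategoryTheory AlgebraicGeometry

universe u

noncomputable section

namespace FQ

variable {k : Type u} [Field k] {L : Type u} [Field L] [Algebra k L]

/-- The subalgebra `⨁ₙ Mⁿ Tⁿ` of `L[T]`. -/
def Rees (M : Submodule k L) : Subalgebra k (Polynomial L) where
  carrier := {p | ∀ n, p.coeff n ∈ M ^ n}
  mul_mem' := by
    intro p q hp hq n
    rw [Polynomial.coeff_mul]
    refine Submodule.sum_mem _ fun x hx => ?_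
    rw [← Finset.HasAntidiagonal.mem_antidiagonal.1 hx, pow_add]
    exact Submodule.mul_mem_mul (hp _) (hq _)
  add_mem' := by
    intro p q hp hq n
    rw [Polynomial.coeff_add]
    exact Submodule.add_mem _ (hp n) (hq n)
  algebraMap_mem' := by
    intro r n
    rw [Polynomial.algebraMap_apply, Polynomial.coeff_C]
    split_ifs with h
    · subst h
      rw [pow_zero]
      exact Submodule.algebraMap_mem r
    · exact Submodule.zero_mem _

/-- The degree `n` part of the Rees algebra. -/
def Rees.grading (M : Submodule k L) (n : ℕ) : Submodule k (Rees M) where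
  carrier := {p | ∀ m, m ≠ n → p.val.coeff m = 0}
  add_mem' := by
    intro p q hp hq m hm
    show (p.val + q.val).coeff m = 0
    rw [Polynomial.coeff_add, hp m hm, hq m hm, add_zero]
  zero_mem' := by
    intro m _
    show (0 : Polynomial L).coeff m = 0
    simp
  smul_mem' := by
    intro c p hp m hm
    show (c • p.val).coeff m = 0
    rw [Polynomial.coeff_smul, hp m hm, smul_zero]

/-- The homogeneous element `c Tⁿ`, `c ∈ Mⁿ`. -/
def Rees.elt (M : Submodule k L) (n : ℕ) (c : L) (hc : c ∈ M ^ n) : Rees M :=
  ⟨Polynomial.monomial n c, by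
    intro m
    rw [Polynomial.coeff_monomial]
    split_ifs with h
    · subst h; exact hc
    · exact Submodule.zero_mem _⟩

theorem Rees.elt_mem (M : Submodule k L) (n : ℕ) (c : L) (hc : c ∈ M ^ n) :
    Rees.elt M n c hc ∈ Rees.grading M n := by
  intro m hm
  show (Polynomial.monomial n c).coeff m = 0
  rw [Polynomial.coeff_monomial, if_neg (Ne.symm hm)]

/-- The homogeneous parts. -/
def Rees.part (M : Submodule k L) (n : ℕ) (p : Rees M) : Rees.grading M n :=
  ⟨Rees.elt M n (p.val.coeff n) (p.2 n), Rees.elt_mem _ _ _ _⟩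

theorem Rees.coeff_coe (M : Submodule k L) (x : DirectSum ℕ fun n => Rees.grading M n) (n : ℕ) :
    (DirectSum.coeAddMonoidHom (Rees.grading M) x).val.coeff n = (x n).val.val.coeff n := by
  induction x using DirectSum.induction_on with
  | zero => simp
  | of i y =>
    rw [DirectSum.coeAddMonoidHom_of]
    by_cases h : i = n
    · subst h
      rw [DirectSum.of_eq_same]
    · rw [DirectSum.of_eq_of_ne _ _ _ (Ne.symm h)]
      exact y.2 n (Ne.symm h)
  | add x y hx hy =>
    rw [map_add, DirectSum.add_apply]
    show ((DirectSum.coeAddMonoidHom (Rees.grading M) x).val +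
      (DirectSum.coeAddMonoidHom (Rees.grading M) y).val).coeff n =
      ((x n).val.val + (y n).val.val).coeff n
    rw [Polynomial.coeff_add, Polynomial.coeff_add, hx, hy]

theorem Rees.coe_injective (M : Submodule k L) :
    Function.Injective (DirectSum.coeAddMonoidHom (Rees.grading M)) := by
  intro x y hxy
  refine DFinsupp.ext fun n => Subtype.ext (Subtype.ext (Polynomial.ext fun m => ?_))
  by_cases h : m = n
  · subst h
    rw [← Rees.coeff_coe, ← Rees.coeff_coe, hxy]
  · rw [(x n).2 m h, (y n).2 m h]

/-- The decomposition into homogeneous parts. -/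
def Rees.dec (M : Submodule k L) (p : Rees M) : DirectSum ℕ fun n => Rees.grading M n :=
  ∑ n ∈ p.val.support, DirectSum.of (fun n => Rees.grading M n) n (Rees.part M n p)

theorem Rees.coe_dec (M : Submodule k L) (p : Rees M) :
    DirectSum.coeAddMonoidHom (Rees.grading M) (Rees.dec M p) = p := by
  rw [Rees.dec, map_sum]
  apply Subtype.ext
  rw [AddSubmonoidClass.coe_finsetSum]
  simp only [DirectSum.coeAddMonoidHom_of]
  conv_rhs => rw [p.val.as_sum_support]
  rfl

instance Rees.gradedAlgebra (M : Submodule k L) : GradedAlgebra (Rees.grading M) where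
  one_mem := by
    intro m hm
    show (1 : Polynomial L).coeff m = 0
    rw [Polynomial.coeff_one, if_neg hm]
  mul_mem := by
    intro i j p q hp hq m hm
    show (p.val * q.val).coeff m = 0
    rw [Polynomial.coeff_mul]
    refine Finset.sum_eq_zero fun x hx => ?_
    by_cases h1 : x.1 = i
    · by_cases h2 : x.2 = j
      · exact absurd (by rw [← Finset.HasAntidiagonal.mem_antidiagonal.1 hx, h1, h2]) hm
      · rw [hq _ h2, mul_zero]
    · rw [hp _ h1, zero_mul]
  decompose' := Rees.dec M
  left_inv := Rees.coe_dec M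
  right_inv := fun x => Rees.coe_injective M (Rees.coe_dec M _)

/-- The scheme `X = Proj (⨁ Mⁿ)`. -/
def RX (M : Submodule k L) : Scheme.{u} := Proj (Rees.grading M)

/-- The structure morphism of `X = Proj (⨁ Mⁿ)`. -/
def RX.str (M : Submodule k L) : RX M ⟶ Spec (.of k) :=
  Proj.toSpecZero (Rees.grading M) ≫
    Spec.map (CommRingCat.ofHom (algebraMap k (Rees.grading M 0)))

/-- The basic open set `D₊(c Tⁿ)`, `c ∈ Mⁿ`. -/
def RX.D (M : Submodule k L) (n : ℕ) (c : L) (hc : c ∈ M ^ n) : (RX M).Opens :=
  Proj.basicOpen (Rees.grading M) (Rees.elt M n c hc)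

end FQ
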